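import Pool.Agent.helper49.SP.SpecAS

/-! # S2: from a sequence of scales to a finite set of scale numbers -/

namespace TP

open DP MeasureTheory

/-- enumeration of a nonempty finite set with gaps at least three, continued by steps of three -/
theorem S2_enum (Λ : Finset ℕ) (hne : Λ.Nonempty) (hgap : ∀ l ∈ Λ, ∀ l' ∈ Λ, l < l' → l + 3 ≤ l') :
    ∃ lam : ℕ → ℕ, (∀ j, lam j + 3 ≤ lam (j + 1)) ∧ (∀ j < Λ.card, lam j ∈ Λ) ∧
      (∀ l ∈ Λ, ∃ j < Λ.card, lam j = l) ∧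
      (∀ f : ℕ → ℝ, ∑ j ∈ Finset.range Λ.card, f (lam j) = ∑ l ∈ Λ, f l) ∧
      ∃ l ∈ Λ, lam Λ.card = l + 3 := by
  have hpos : 0 < Λ.card := hne.card_pos
  set J := Λ.card with hJ
  let e : Fin J ↪o ℕ := Λ.orderEmbOfFin rfl
  have he : ∀ i, e i ∈ Λ := fun i => Λ.orderEmbOfFin_mem rfl i
  let lam : ℕ → ℕ := fun j => if h : j < J then e ⟨j, h⟩ else e ⟨J - 1, by omega⟩ + 3 * (j - (J - 1))
  have h1 : ∀ j (h : j < J), lam j = e ⟨j, h⟩ := fun j h => by simp only [lam, dif_pos h]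
  have h2 : ∀ j, ¬ j < J → lam j = e ⟨J - 1, by omega⟩ + 3 * (j - (J - 1)) := fun j h => by
    simp only [lam, dif_neg h]
  refine ⟨lam, ?_, ?_, ?_, ?_, ?_⟩
  · intro j
    by_cases hj : j + 1 < J
    · rw [h1 j (by omega), h1 (j + 1) hj]
      exact hgap _ (he _) _ (he _) (e.strictMono (by simp [Fin.lt_def]))
    · by_cases hj' : j < J
      · have : j = J - 1 := by omega
        subst this
        rw [h1 _ hj', h2 _ hj]
        omega
      · rw [h2 _ hj', h2 _ hj]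
        omega
  · intro j hj
    rw [h1 j hj]
    exact he _
  · intro l hl
    have : l ∈ Set.range e := by
      rw [Finset.range_orderEmbOfFin]
      exact hl
    obtain ⟨i, hi⟩ := this
    exact ⟨i, i.2, by rw [h1 _ i.2]; exact hi⟩
  · intro f
    rw [Finset.sum_range]
    have h3 : ∑ i : Fin J, f (lam i) = ∑ i : Fin J, f (e i) :=
      Finset.sum_congr rfl fun i _ => by rw [h1 _ i.2]
    rw [h3]
    have h4 : Λ = Finset.map e.toEmbedding Finset.univ := by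
      ext l
      simp only [Finset.mem_map, Finset.mem_univ, true_and]
      constructor
      · intro hl
        have : l ∈ Set.range e := by
          rw [Finset.range_orderEmbOfFin]
          exact hl
        obtain ⟨i, hi⟩ := this
        exact ⟨i, hi⟩
      · rintro ⟨i, rfl⟩
        exact he i
    conv_rhs => rw [h4]
    rw [Finset.sum_map]
    rfl
  · refine ⟨e ⟨J - 1, by omega⟩, he _, ?_⟩
    rw [h2 J (by omega)]
    omega

theorem S2_core (hU : U1ii_stmt) : ∃ k₀ : ℕ, ∀ s : ℕ, k₀ ≤ s → ∃ (C c : ℝ), 0 < C ∧ 0 < c ∧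
    ∀ (i k t k₁ m : ℕ) (Λ : Finset ℕ) (x : V),
    k₀ ≤ t → k₀ ≤ m → k₀ ≤ k₁ → Λ.Nonempty → (∀ l ∈ Λ, ∀ l' ∈ Λ, l < l' → l + 3 ≤ l') →
    (∀ l ∈ Λ, pl t k₁ m s (l + 3) + k ≤ i) →
    (x.1 + x.2) % 2 = 0 → Bulk i k x →
      PPv i (fun X => (∃ v ∈ X, sd x v ≤ 2 ^ (t + 1)) ∧
        ∀ l ∈ Λ, ¬ PairS X true x (pl t k₁ m s l) m s ∧ ¬ PairS X false x (pl t k₁ m s l) m s) ≤
      C * Real.exp (-(c * ∑ l ∈ Λ, rat (pl t k₁ m s l) m s)) * a4 t (i - k) := by
  obtain ⟨k₀, h⟩ := hU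
  refine ⟨k₀, fun s hs => ?_⟩
  obtain ⟨C, c, hC, hc, hmain⟩ := h s hs
  refine ⟨C, c, hC, hc, ?_⟩
  intro i k t k₁ m Λ x ht hm hk₁ hne hgap hi hx hB
  obtain ⟨lam, hl1, hl2, hl3, hl4, l₀, hl₀, hl5⟩ := S2_enum Λ hne hgap
  have key := hmain i k t m Λ.card (fun j => pl t k₁ m s (lam j)) x ht hm ?_ ?_ ?_ hx hB
  · have hev : (fun X : Set V => (∃ v ∈ X, sd x v ≤ 2 ^ (t + 1)) ∧
        ∀ l ∈ Λ, ¬ PairS X true x (pl t k₁ m s l) m s ∧ ¬ PairS X false x (pl t k₁ m s l) m s) =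
        (fun X : Set V => (∃ v ∈ X, sd x v ≤ 2 ^ (t + 1)) ∧
        ∀ j < Λ.card, ¬ PairS X true x (pl t k₁ m s (lam j)) m s ∧
          ¬ PairS X false x (pl t k₁ m s (lam j)) m s) := by
      funext X
      apply propext
      refine and_congr_right fun _ => ?_
      constructor
      · intro h j hj
        exact h _ (hl2 j hj)
      · intro h l hl
        obtain ⟨j, hj, rfl⟩ := hl3 l hl
        exact h j hj
    rw [hev, ← hl4 (fun l => rat (pl t k₁ m s l) m s)]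
    exact key
  · show t + k₀ ≤ t + k₁ + _
    omega
  · intro j
    show t + k₁ + lam j * (m + 3 * s) + m + 3 * s + m + k₀ + s ≤ t + k₁ + lam (j + 1) * (m + 3 * s)
    have h1 : (lam j + 3) * (m + 3 * s) ≤ lam (j + 1) * (m + 3 * s) :=
      Nat.mul_le_mul_right _ (hl1 j)
    have h2 : (lam j + 3) * (m + 3 * s) = lam j * (m + 3 * s) + 3 * (m + 3 * s) := by ring
    omega
  · show pl t k₁ m s (lam Λ.card) + k ≤ i
    rw [hl5]
    exact hi l₀ hl₀

theorem S2 : S2_stmt := fun hU => S2_core hU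

end TP
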