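import Pool.Agent.helper31.SP.SpecTL

/-! # TL17: comparison of the normalisations -/

namespace TP

open DP MeasureTheory

theorem TL17 (hUI8 : UI8_stmt) : TL17_stmt := by
  obtain ⟨C, k₀, hC, h1, -, -, h4, h5⟩ := hUI8
  refine ⟨k₀, fun m₀ hm₀ k => ⟨(C ^ (k + 1))⁻¹, by positivity, fun i t ht hi => ?_⟩⟩
  have hp1 : 0 < a4 m₀ t := h5 m₀ t hm₀ ht
  have hp2 : 0 < a4 t (i - k) := h5 t (i - k) (by omega) (by omega)
  refine ⟨?_, hp1, hp2⟩
  have e1 := h1 m₀ t (i - k) hm₀ ht (by omega)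
  have e2 := h4 m₀ (i - k) k hm₀ (by omega)
  rw [show i - k + k = i by omega] at e2
  have hC0 : 0 < C := by linarith
  rw [inv_mul_le_iff₀ (by positivity)]
  calc a4 m₀ t * a4 t (i - k) ≤ C * a4 m₀ (i - k) := e1
    _ ≤ C * (C ^ k * a4 m₀ i) := mul_le_mul_of_nonneg_left e2 hC0.le
    _ = C ^ (k + 1) * a4 m₀ i := by ring

end TP
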